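import Mathlib
import Pool.Agent.U845.QR8

/-! The primes along `n² + a` with arbitrary bounded weights, for almost all `a`, saving any power of
the logarithm. -/

set_option autoImplicit false

namespace Pool.Agent.U845.QS

open Finset
open Pool.Agent.H373R2.T7 (pz Vz lamz mem_pz Vz_pos lamz_nonneg)
open Pool.Agent.U845.QR

/-- the proper prime powers -/
noncomputable def lq (m : ℕ) : ℝ := if ¬ m.Prime then ArithmeticFunction.vonMangoldt m else 0

lemma lq_nonneg (m : ℕ) : 0 ≤ lq m := by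
  unfold lq
  split_ifs
  · exact le_rfl
  · exact ArithmeticFunction.vonMangoldt_nonneg

lemma sum_lq (M : ℕ) (hM : 1 ≤ M) : ∑ m ∈ Icc 1 M, lq m ≤ 2 * √(M : ℝ) * Real.log M := by
  have h := Chebyshev.psi_sub_theta_le (x := (M : ℝ)) (by exact_mod_cast hM)
  rw [Chebyshev.psi_sub_theta_eq_sum_not_prime, Nat.floor_natCast, sum_filter] at h
  exact h

noncomputable def E2 (N : ℕ) (a : ℤ) : ℝ := ∑ n ∈ Icc 1 N, lq ((n : ℤ) ^ 2 + a).natAbs

lemma E2_avg (X N : ℕ) (hX : 1 ≤ X) : ∑ a ∈ Icc (-(X : ℤ)) X, E2 N a ≤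
    N * (4 * √((X + N ^ 2 : ℕ) : ℝ) * Real.log ((X + N ^ 2 : ℕ) : ℝ)) := by
  unfold E2
  rw [sum_comm]
  have h2 : ∀ n ∈ Icc 1 N, ∑ a ∈ Icc (-(X : ℤ)) X, lq ((n : ℤ) ^ 2 + a).natAbs ≤
      4 * √((X + N ^ 2 : ℕ) : ℝ) * Real.log ((X + N ^ 2 : ℕ) : ℝ) := by
    intro n hn
    rw [mem_Icc] at hn
    have hnN : (n : ℤ) ^ 2 ≤ (N : ℤ) ^ 2 := by
      have : (n : ℤ) ≤ N := by exact_mod_cast hn.2
      exact pow_le_pow_left₀ (by positivity) this 2
    have hn0 : (0 : ℤ) ≤ (n : ℤ) ^ 2 := by positivity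
    have e1 : ∑ a ∈ Icc (-(X : ℤ)) X, lq ((n : ℤ) ^ 2 + a).natAbs =
        ∑ m ∈ (Icc (-(X : ℤ)) X).image (fun a => (n : ℤ) ^ 2 + a), lq m.natAbs := by
      rw [sum_image (fun x _ y _ h => by simpa using h)]
    rw [e1]
    have e2 : ∑ m ∈ (Icc (-(X : ℤ)) X).image (fun a => (n : ℤ) ^ 2 + a), lq m.natAbs ≤
        ∑ m ∈ Icc (-((X + N ^ 2 : ℕ) : ℤ)) ((X + N ^ 2 : ℕ) : ℤ), lq m.natAbs := by
      apply sum_le_sum_of_subset_of_nonneg
      · intro m hm
        rw [mem_image] at hm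
        obtain ⟨a, ha, rfl⟩ := hm
        rw [mem_Icc] at ha ⊢
        push_cast
        constructor <;> linarith [ha.1, ha.2]
      · intro m _ _
        exact lq_nonneg _
    refine e2.trans ?_
    rw [sum_symR]
    have e3 : lq (0 : ℤ).natAbs = 0 := by
      unfold lq
      simp
    rw [e3, zero_add]
    have e4 : ∑ m ∈ Icc 1 (X + N ^ 2), (lq ((m : ℕ) : ℤ).natAbs + lq (-((m : ℕ) : ℤ)).natAbs) =
        2 * ∑ m ∈ Icc 1 (X + N ^ 2), lq m := by
      rw [mul_sum]
      refine sum_congr rfl fun m _ => ?_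
      rw [Int.natAbs_neg, Int.natAbs_natCast]
      ring
    rw [e4]
    have := sum_lq (X + N ^ 2) (by omega)
    linarith
  refine (sum_le_sum h2).trans (le_of_eq ?_)
  rw [sum_const, Nat.card_Icc, Nat.add_sub_cancel, nsmul_eq_mul]

/-- the weighted sum over the prime values, with the logarithms -/
noncomputable def Th (w : ℕ → ℝ) (a : ℤ) (y : ℕ) : ℝ :=
  ∑ n ∈ (Icc 1 y).filter (fun n : ℕ => ((n : ℤ) ^ 2 + a).natAbs.Prime),
    w n * Real.log (((n : ℤ) ^ 2 + a).natAbs : ℝ)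

lemma split (z N : ℕ) (w : ℕ → ℝ) (hw : ∀ n, |w n| ≤ 1) (a : ℤ) (y : ℕ) (hy : y ≤ N) :
    |Th w a y - Mw z w a y| ≤ |Rw z w a y| + E2 N a := by
  have h1 : Th w a y - Mw z w a y = Rw z w a y -
      ∑ n ∈ Icc 1 y, w n * lq ((n : ℤ) ^ 2 + a).natAbs := by
    unfold Th Mw Rw df
    rw [sum_filter, ← sum_sub_distrib, ← sum_sub_distrib]
    refine sum_congr rfl fun n _ => ?_
    unfold lq
    by_cases hp : ((n : ℤ) ^ 2 + a).natAbs.Prime
    · rw [if_pos hp, if_neg (not_not.2 hp), ArithmeticFunction.vonMangoldt_apply_prime hp]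
      ring
    · rw [if_neg hp, if_pos hp]
      ring
  rw [h1]
  refine (abs_sub _ _).trans (add_le_add_right ?_ _)
  refine (abs_sum_le_sum_abs _ _).trans ?_
  have h2 : ∑ n ∈ Icc 1 y, |w n * lq ((n : ℤ) ^ 2 + a).natAbs| ≤
      ∑ n ∈ Icc 1 y, lq ((n : ℤ) ^ 2 + a).natAbs := by
    refine sum_le_sum fun n _ => ?_
    rw [abs_mul, abs_of_nonneg (lq_nonneg _)]
    exact mul_le_of_le_one_left (lq_nonneg _) (hw n)
  refine h2.trans ?_
  unfold E2
  apply sum_le_sum_of_subset_of_nonneg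
  · exact Icc_subset_Icc_right hy
  · intro _ _ _
    exact lq_nonneg _

open Classical in
/-- **Arbitrary weights, quantitative form.** -/
theorem quant (A C : ℕ) : ∃ B : ℕ, ∀ E : ℕ, ∃ X0 : ℕ, ∀ X : ℕ, X0 ≤ X → ∀ N z : ℕ,
    (N : ℝ) ^ 2 ≤ X * Real.log X ^ C → (X : ℝ) ≤ N ^ 2 * Real.log X ^ C →
    Real.log X ^ B ≤ z → (z : ℝ) ≤ Real.log X ^ E → ∀ w : ℕ → ℝ, (∀ n, |w n| ≤ 1) →
    ∃ Ex : Finset ℤ, Ex ⊆ Icc (-(X : ℤ)) X ∧ (Ex.card : ℝ) ≤ X / Real.log X ^ A ∧
    ∀ a ∈ Icc (-(X : ℤ)) X, a ∉ Ex → ∀ y ≤ N,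
      |Th w a y - Mw z w a y| ≤ N / Real.log X ^ A := by
  obtain ⟨B, hB⟩ := l2_log C (4 * A + 3)
  refine ⟨B, fun E => ?_⟩
  obtain ⟨m1, h1⟩ := hB E
  obtain ⟨m2, h2⟩ := Pool.Agent.H373R2.T7.Vz_inv_small E
  obtain ⟨m3, h3⟩ := Pool.Agent.H373R2.T7.ev_L' 20000
  obtain ⟨m4, h4⟩ := Pool.Agent.H373R2.T7.ev_log' (C + 2 * A + 2) 256
  refine ⟨m1 + m2 + m3 + m4 + 3, fun X hX N z hN1 hN2 hz1 hz2 w hw => ?_⟩
  have hX3 : 3 ≤ X := by omega
  have hXr : (3 : ℝ) ≤ X := by exact_mod_cast hX3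
  have hX0 : (0 : ℝ) < X := by linarith
  have g1 := h1 X (by omega) N z hN1 hN2 hz1 hz2
  have g2 := h2 X (by omega) z
  have g3 := h3 X (by omega)
  have g4 := h4 X (by omega)
  obtain ⟨L, hL⟩ : ∃ L : ℝ, L = Real.log X := ⟨_, rfl⟩
  rw [← hL] at g1 g2 g3 g4 hN1 hN2 hz1 hz2 ⊢
  have hL0 : 0 < L := by linarith
  have hL1 : 1 ≤ L := by linarith
  have hz0 : 1 ≤ z := by
    have : (1 : ℝ) ≤ z := (one_le_pow₀ hL1).trans hz1
    exact_mod_cast this
  have hV := g2 hz0 hz2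
  have hV0 : 0 < (Vz z)⁻¹ := inv_pos.2 (Vz_pos z)
  obtain ⟨P, hP⟩ : ∃ P : ℝ, P = L ^ A := ⟨_, rfl⟩
  obtain ⟨D, hD⟩ : ∃ D : ℝ, D = L ^ C := ⟨_, rfl⟩
  have hP1 : 1 ≤ P := by rw [hP]; exact one_le_pow₀ hL1
  have hD1 : 1 ≤ D := by rw [hD]; exact one_le_pow₀ hL1
  have hP0 : 0 < P := by linarith
  have hD0 : 0 < D := by linarith
  have e4 : L ^ (C + 2 * A + 2) = D * P ^ 2 * L ^ 2 := by
    rw [hD, hP]; ring
  rw [e4] at g4
  rw [← hP]
  rw [← hD] at hN1 hN2
  have hsX : √(X : ℝ) * √(X : ℝ) = X := Real.mul_self_sqrt hX0.le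
  have hs0 : 0 < √(X : ℝ) := Real.sqrt_pos.2 hX0
  have hs1 : 1 ≤ √(X : ℝ) := by
    have : 1 ≤ D * P ^ 2 * L ^ 2 := by
      have a1 : 1 ≤ P ^ 2 := one_le_pow₀ hP1
      have a2 : 1 ≤ L ^ 2 := one_le_pow₀ hL1
      have a3 : 1 ≤ D * P ^ 2 := by nlinarith
      nlinarith
    linarith
  -- `N` is large
  have hN : 256 * P ^ 2 * L ^ 2 ≤ N := by
    have a1 : √(X : ℝ) ≤ N * D := by
      rw [Real.sqrt_le_left (by positivity)]
      refine hN2.trans ?_
      have : (N : ℝ) ^ 2 * D ≤ (N : ℝ) ^ 2 * (D * D) :=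
        mul_le_mul_of_nonneg_left (by nlinarith) (by positivity)
      nlinarith
    have a2 : 256 * P ^ 2 * L ^ 2 * D ≤ N * D := by
      calc 256 * P ^ 2 * L ^ 2 * D = 256 * (D * P ^ 2 * L ^ 2) := by ring
        _ ≤ √(X : ℝ) := g4
        _ ≤ _ := a1
    exact le_of_mul_le_mul_right a2 hD0
  have hNP : 16 * P * L ≤ N := by
    have a1 : P ≤ P ^ 2 := by nlinarith
    have a2 : L ≤ L ^ 2 := by nlinarith
    have a3 : P * L ≤ P ^ 2 * L ^ 2 := mul_le_mul a1 a2 hL0.le (by positivity)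
    nlinarith
  have hN0 : (0 : ℝ) < N := by
    have : 0 < 16 * P * L := by positivity
    linarith
  have hNn : 1 ≤ N := by exact_mod_cast hN0
  -- the grid
  obtain ⟨K, hK⟩ : ∃ K : ℕ, K = ⌈32 * P * L⌉₊ := ⟨_, rfl⟩
  have hK1 : 32 * P * L ≤ K := by rw [hK]; exact Nat.le_ceil _
  have hKpos : 1 ≤ K := by
    rw [hK, Nat.one_le_ceil_iff]
    positivity
  have hKr : (0 : ℝ) < K := by exact_mod_cast hKpos
  have hPL : 1 ≤ P * L := by nlinarith
  have hK2 : (K : ℝ) + 1 ≤ 34 * P * L := by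
    have e1 : (K : ℝ) ≤ 32 * P * L + 1 := by rw [hK]; exact (Nat.ceil_lt_add_one (by positivity)).le
    nlinarith
  obtain ⟨t, ht⟩ : ∃ t : ℝ, t = N / (16 * P) := ⟨_, rfl⟩
  have ht0 : 0 < t := by rw [ht]; positivity
  obtain ⟨s, hs⟩ : ∃ s : ℝ, s = N / (4 * P) := ⟨_, rfl⟩
  have hs00 : 0 < s := by rw [hs]; positivity
  obtain ⟨S, hS⟩ : ∃ S : Finset ℤ, S = Icc (-(X : ℤ)) X := ⟨_, rfl⟩
  -- the mean squares
  have hms : ∀ v : ℕ → ℝ, (∀ n, |v n| ≤ 1) → ∀ u ≤ N, ((S.filter (fun a => t < |Rw z v a u|)).card : ℝ) ≤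
      X * N ^ 2 / L ^ (4 * A + 3) / t ^ 2 := by
    intro v hv u hu
    apply markov S (fun a => Rw z v a u) _ t ht0
    have k1 := g1 (fun n => if n ≤ u then v n else 0) (fun n => by
        split_ifs
        · exact hv n
        · simp)
    refine le_trans (le_of_eq ?_) k1
    rw [hS]
    refine sum_congr rfl fun a _ => ?_
    rw [Rw_trunc z v a u N hu]
  have hval : (X : ℝ) * N ^ 2 / L ^ (4 * A + 3) / t ^ 2 = 256 * X / (P ^ 2 * L ^ 3) := by
    have e1 : L ^ (4 * A + 3) = P ^ 4 * L ^ 3 := by rw [hP]; ring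
    rw [ht, e1]
    field_simp
    ring
  rw [hval] at hms
  have hgr : ∀ j ≤ K, j * N / K ≤ N := by
    intro j hj
    calc j * N / K ≤ K * N / K := Nat.div_le_div_right (Nat.mul_le_mul_right _ hj)
      _ = N := by rw [mul_comm, Nat.mul_div_cancel _ hKpos]
  refine ⟨(range (K + 1)).biUnion (fun j => S.filter (fun a => t < |Rw z w a (j * N / K)|)) ∪
    (range (K + 1)).biUnion (fun j => S.filter (fun a => t < |Rw z (fun _ => 1) a (j * N / K)|)) ∪
    S.filter (fun a => s < E2 N a), ?_, ?_, ?_⟩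
  · rw [← hS]
    intro a ha
    rw [mem_union, mem_union, mem_biUnion, mem_biUnion] at ha
    rcases ha with (⟨j, _, h⟩ | ⟨j, _, h⟩) | h
    · exact (mem_filter.1 h).1
    · exact (mem_filter.1 h).1
    · exact (mem_filter.1 h).1
  · have c0 : ∀ v : ℕ → ℝ, (∀ n, |v n| ≤ 1) →
        (((range (K + 1)).biUnion (fun j => S.filter (fun a => t < |Rw z v a (j * N / K)|))).card : ℝ) ≤
        (K + 1) * (256 * X / (P ^ 2 * L ^ 3)) := by
      intro v hv
      have c0 : (((range (K + 1)).biUnion (fun j => S.filter (fun a => t < |Rw z v a (j * N / K)|))).card : ℝ) ≤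
          ∑ j ∈ range (K + 1), ((S.filter (fun a => t < |Rw z v a (j * N / K)|)).card : ℝ) := by
        exact_mod_cast card_biUnion_le
      refine c0.trans ?_
      calc _ ≤ ∑ _j ∈ range (K + 1), 256 * (X : ℝ) / (P ^ 2 * L ^ 3) := by
            refine sum_le_sum fun j hj => ?_
            rw [mem_range] at hj
            exact hms v hv _ (hgr j (by omega))
        _ = _ := by
            rw [sum_const, card_range, nsmul_eq_mul]
            push_cast
            ring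
    have c1 := c0 w hw
    have c2 := c0 (fun _ => 1) (fun _ => by simp)
    have c3 : ((K : ℝ) + 1) * (256 * X / (P ^ 2 * L ^ 3)) ≤ X / (4 * P) := by
      calc ((K : ℝ) + 1) * (256 * X / (P ^ 2 * L ^ 3)) ≤ 34 * P * L * (256 * X / (P ^ 2 * L ^ 3)) :=
            mul_le_mul_of_nonneg_right hK2 (by positivity)
        _ = 8704 * X / (P * L ^ 2) := by
            field_simp
            ring
        _ ≤ X / (4 * P) := by
            rw [div_le_div_iff₀ (by positivity) (by positivity)]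
            have : (34816 : ℝ) ≤ L ^ 2 := by nlinarith
            have h5 : 0 ≤ X * P := by positivity
            nlinarith
    have c4 : ((S.filter (fun a => s < E2 N a)).card : ℝ) ≤ X / (4 * P) := by
      have k00 : ∑ a ∈ S, E2 N a ≤
          N * (4 * √((X + N ^ 2 : ℕ) : ℝ) * Real.log ((X + N ^ 2 : ℕ) : ℝ)) := by
        rw [hS]
        exact E2_avg X N (by omega)
      have k0 := markov1 S (fun a => E2 N a) (fun a => sum_nonneg fun _ _ => lq_nonneg _) _ s hs00 k00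
      refine k0.trans ?_
      obtain ⟨M, hM⟩ : ∃ M : ℕ, M = X + N ^ 2 := ⟨_, rfl⟩
      rw [← hM]
      have hMr : (M : ℝ) = X + (N : ℝ) ^ 2 := by rw [hM]; push_cast; ring
      have hM0 : (0 : ℝ) < M := by rw [hMr]; positivity
      have hM1 : (M : ℝ) ≤ 2 * X * D := by
        rw [hMr]
        nlinarith
      have hM2 : √(M : ℝ) ≤ 2 * √(X : ℝ) * D := by
        rw [Real.sqrt_le_left (by positivity)]
        have a1 : (2 * √(X : ℝ) * D) ^ 2 = 4 * (√(X : ℝ) * √(X : ℝ)) * (D * D) := by ring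
        rw [a1, hsX]
        have a2 : (X : ℝ) * D ≤ X * (D * D) := mul_le_mul_of_nonneg_left (by nlinarith) hX0.le
        nlinarith
      have hD2 : 2 * D ≤ X := by
        have a1 : D ≤ D * P ^ 2 * L ^ 2 := by
          have a2 : 1 ≤ P ^ 2 * L ^ 2 := by
            have := one_le_pow₀ (n := 2) hPL
            calc (1 : ℝ) ≤ (P * L) ^ 2 := this
              _ = _ := by ring
          nlinarith
        have a3 : √(X : ℝ) ≤ X := by nlinarith
        linarith
      have hM3 : Real.log M ≤ 2 * L := by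
        have a1 : (M : ℝ) ≤ (X : ℝ) ^ 2 := by
          refine hM1.trans ?_
          nlinarith
        have := Real.log_le_log hM0 a1
        rw [Real.log_pow] at this
        rw [hL]
        exact_mod_cast this
      have hlM0 : 0 ≤ Real.log M := by
        apply Real.log_nonneg
        have : (1 : ℝ) ≤ X := by linarith
        rw [hMr]
        nlinarith [sq_nonneg (N : ℝ)]
      calc (N : ℝ) * (4 * √(M : ℝ) * Real.log M) / s = 16 * P * (√(M : ℝ) * Real.log M) := by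
            rw [hs]
            field_simp
            ring
        _ ≤ 16 * P * (2 * √(X : ℝ) * D * (2 * L)) := by
            apply mul_le_mul_of_nonneg_left _ (by positivity)
            exact mul_le_mul hM2 hM3 hlM0 (by positivity)
        _ = 64 * P * D * L * √(X : ℝ) := by ring
        _ ≤ X / (4 * P) := by
            rw [le_div_iff₀ (by positivity)]
            have a1 : 64 * P * D * L * √(X : ℝ) * (4 * P) = 256 * (D * P ^ 2 * L) * √(X : ℝ) := by ring
            have a2 : D * P ^ 2 * L ≤ D * P ^ 2 * L ^ 2 := by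
              apply mul_le_mul_of_nonneg_left _ (by positivity)
              nlinarith
            rw [a1]
            calc 256 * (D * P ^ 2 * L) * √(X : ℝ) ≤ √(X : ℝ) * √(X : ℝ) := by
                  apply mul_le_mul_of_nonneg_right _ hs0.le
                  linarith
              _ = X := hsX
    have c5 : (X : ℝ) / (4 * P) + X / (4 * P) + X / (4 * P) ≤ X / P := by
      have : (X : ℝ) / P = X / (4 * P) + X / (4 * P) + X / (4 * P) + X / (4 * P) := by
        field_simp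
        ring
      have h0 : 0 ≤ (X : ℝ) / (4 * P) := by positivity
      linarith
    have u1 : ∀ s1 s2 s3 : Finset ℤ, ((s1 ∪ s2 ∪ s3).card : ℝ) ≤ (s1.card : ℝ) + s2.card + s3.card := by
      intro s1 s2 s3
      have k1 := card_union_le (s1 ∪ s2) s3
      have k2 := card_union_le s1 s2
      exact_mod_cast (by omega : (s1 ∪ s2 ∪ s3).card ≤ s1.card + s2.card + s3.card)
    refine (u1 _ _ _).trans ?_
    linarith
  · intro a ha hex y hy
    rw [← hS] at ha
    rw [mem_union, mem_union, not_or, not_or] at hex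
    obtain ⟨⟨x1, x2⟩, x3⟩ := hex
    have y1 : ∀ j ≤ K, |Rw z w a (j * N / K)| ≤ t := by
      intro j hj
      by_contra hc
      exact x1 (mem_biUnion.2 ⟨j, mem_range.2 (by omega), mem_filter.2 ⟨ha, not_le.1 hc⟩⟩)
    have y2 : ∀ j ≤ K, |Rw z (fun _ => 1) a (j * N / K)| ≤ t := by
      intro j hj
      by_contra hc
      exact x2 (mem_biUnion.2 ⟨j, mem_range.2 (by omega), mem_filter.2 ⟨ha, not_le.1 hc⟩⟩)
    have y3 : E2 N a ≤ s := by
      by_contra hc
      exact x3 (mem_filter.2 ⟨ha, not_le.1 hc⟩)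
    have k1 := grid z N K hKpos w hw a t y1 y2 y hy
    have k2 := split z N w hw a y hy
    have k3 : 2 * (Vz z)⁻¹ * ((N : ℝ) / K + 1) ≤ N / (16 * P) + 2 * L := by
      have a1 : (N : ℝ) / K ≤ N / (32 * P * L) := div_le_div_of_nonneg_left hN0.le (by positivity) hK1
      calc 2 * (Vz z)⁻¹ * ((N : ℝ) / K + 1) ≤ 2 * L * (N / (32 * P * L) + 1) := by
            apply mul_le_mul _ _ (by positivity) (by positivity)
            · linarith
            · linarith
        _ = _ := by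
            field_simp
            ring
    have k4 : 2 * L ≤ N / (8 * P) := by
      rw [le_div_iff₀ (by positivity)]
      nlinarith
    have k5 : (N : ℝ) / P = 16 * (N / (16 * P)) := by field_simp
    have k6 : (N : ℝ) / (8 * P) = 2 * (N / (16 * P)) := by
      field_simp
      norm_num
    have k7 : s = 4 * t := by
      rw [hs, ht]
      field_simp
      norm_num
    rw [k5, ← ht]
    rw [← ht] at k3 k6
    linarith

end Pool.Agent.U845.QS
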